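import Pool.Agent.helper95.DP.Main
import Pool.Agent.helper92.DP.HNV

/-!
# Exceptional times with infinite clusters of both colours on the square lattice

Critical dynamical bond percolation on `ℤ²`: almost surely every time interval contains a time at
which there are an infinite cluster of open edges and an infinite cluster of open dual edges.
The model (definitions `DynPerc.*`) is in `Pool/Agent/helper95/DP/Model.lean`.
-/

namespace Pool.Agent.Results.MP_115c1a_pr.BothColours

open MeasureTheory

/-- Dynamical percolation exists (so the theorem below is not vacuous). -/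
theorem exists_dynPerc : ∃ (Ω : Type) (_ : MeasurableSpace Ω) (P : Measure Ω)
    (_ : IsProbabilityMeasure P) (τ : DynPerc.Edge → ℕ → Ω → ℝ)
    (U : DynPerc.Edge → ℕ → Ω → Bool), DynPerc.IsDynPerc P τ U := DP.HNV

/-- Almost surely, in every time interval `[a, b]` there is a time at which both a black and a white
infinite cluster exist. -/
theorem result : ∀ (Ω : Type) [MeasurableSpace Ω] (P : Measure Ω) [IsProbabilityMeasure P]
    (τ : DynPerc.Edge → ℕ → Ω → ℝ) (U : DynPerc.Edge → ℕ → Ω → Bool), DynPerc.IsDynPerc P τ U →
    ∀ᵐ x ∂P, ∀ a b : ℝ, 0 ≤ a → a < b → ∃ t, a ≤ t ∧ t ≤ b ∧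
      DynPerc.BlackPerc (DynPerc.state τ U x t) ∧ DynPerc.WhitePerc (DynPerc.state τ U x t) :=
  DP.Main.m_HFI

end Pool.Agent.Results.MP_115c1a_pr.BothColours
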